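import Mathlib

open Complex

namespace Pool.Agent.Results.MP_2c87a3_an.Mixed

/-- Fourier transform of the uniform probability measure on a finite set of integers. -/
noncomputable def nuHat (E : Finset ℤ) (ξ : ℝ) : ℂ :=
  (1 / (E.card : ℂ)) * ∑ a ∈ E, Complex.exp (-(2 * Real.pi * Complex.I * (ξ : ℂ) * (a : ℂ)))

/-- spectral pair in `ℤ_N`. -/
def SpectralPair (N : ℕ) (A B : Finset ℤ) : Prop :=
  ∀ b ∈ B, ∀ b' ∈ B, b ≠ b' → nuHat A (((b : ℝ) - (b' : ℝ)) / (N : ℝ)) = 0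

/-- distributed spectral pair in `{0, …, M-1}`. -/
def Distributed (M : ℕ) (A B : Finset ℤ) : Prop :=
  ∀ b₁ ∈ B, ∀ b₁' ∈ B, b₁ ≠ b₁' →
    nuHat A (((b₁ : ℝ) - (b₁' : ℝ)) / (M : ℝ)) = 0 ∨
    ∀ b₂ ∈ B, ∀ b₂' ∈ B,
      nuHat A (((b₁ : ℝ) - (b₁' : ℝ)) / (M : ℝ) ^ 2 + ((b₂ : ℝ) - (b₂' : ℝ)) / (M : ℝ)) = 0

noncomputable def e (t : ℝ) : ℂ := Complex.exp (-(2 * Real.pi * Complex.I * (t : ℂ)))

lemma fac (ξ : ℝ) : nuHat {0, 3, 18, 21} ξ = (1 / 4) * ((1 + e (3 * ξ)) * (1 + e (18 * ξ))) := by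
  unfold nuHat e
  have hc : ({0, 3, 18, 21} : Finset ℤ).card = 4 := by decide
  rw [hc, Finset.sum_insert (by decide), Finset.sum_insert (by decide),
    Finset.sum_insert (by decide), Finset.sum_singleton]
  have h : Complex.exp (-(2 * Real.pi * Complex.I * (ξ : ℂ) * ((21 : ℤ) : ℂ))) =
      Complex.exp (-(2 * Real.pi * Complex.I * ((3 * ξ : ℝ) : ℂ))) *
      Complex.exp (-(2 * Real.pi * Complex.I * ((18 * ξ : ℝ) : ℂ))) := by
    rw [← Complex.exp_add]; congr 1; push_cast; ring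
  have h3 : Complex.exp (-(2 * Real.pi * Complex.I * (ξ : ℂ) * ((3 : ℤ) : ℂ))) =
      Complex.exp (-(2 * Real.pi * Complex.I * ((3 * ξ : ℝ) : ℂ))) := by
    congr 1; push_cast; ring
  have h18 : Complex.exp (-(2 * Real.pi * Complex.I * (ξ : ℂ) * ((18 : ℤ) : ℂ))) =
      Complex.exp (-(2 * Real.pi * Complex.I * ((18 * ξ : ℝ) : ℂ))) := by
    congr 1; push_cast; ring
  rw [h, h3, h18]
  simp only [Int.cast_zero, mul_zero, neg_zero, Complex.exp_zero]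
  push_cast; ring

lemma e_half (t : ℝ) (k : ℤ) (h : t = k + 1 / 2) : 1 + e t = 0 := by
  unfold e
  have : -(2 * Real.pi * Complex.I * (t : ℂ)) =
      ((-k - 1 : ℤ) : ℂ) * (2 * Real.pi * Complex.I) + Real.pi * Complex.I := by
    rw [h]; push_cast; ring
  rw [this, Complex.exp_add, Complex.exp_int_mul_two_pi_mul_I, Complex.exp_pi_mul_I]; ring

lemma e_int (t : ℝ) (k : ℤ) (h : t = k) : e t = 1 := by
  unfold e
  have : -(2 * Real.pi * Complex.I * (t : ℂ)) = ((-k : ℤ) : ℂ) * (2 * Real.pi * Complex.I) := by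
    rw [h]; push_cast; ring
  rw [this, Complex.exp_int_mul_two_pi_mul_I]

lemma e_small (t : ℝ) (h0 : 0 ≤ t) (h1 : t ≤ 1 / 4) : 1 + e t ≠ 0 := by
  unfold e
  have : -(2 * Real.pi * Complex.I * (t : ℂ)) = ((-(2 * Real.pi * t) : ℝ) : ℂ) * Complex.I := by
    push_cast; ring
  rw [this]
  intro hh
  have h2 := congrArg Complex.re hh
  rw [Complex.add_re, Complex.exp_ofReal_mul_I_re, Complex.one_re, Complex.zero_re] at h2
  have hp := Real.pi_pos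
  have : 0 ≤ Real.cos (-(2 * Real.pi * t)) := by
    apply Real.cos_nonneg_of_neg_pi_div_two_le_of_le <;> nlinarith
  linarith

lemma z3 (ξ : ℝ) (k : ℤ) (h : 3 * ξ = k + 1 / 2) : nuHat {0, 3, 18, 21} ξ = 0 := by
  rw [fac, e_half _ k h]; ring

lemma z18 (ξ : ℝ) (k : ℤ) (h : 18 * ξ = k + 1 / 2) : nuHat {0, 3, 18, 21} ξ = 0 := by
  rw [fac, e_half _ k h]; ring

lemma type2 (d : ℤ) (j : ℤ) (hd : d = 32 * j + 16) :
    ∀ b₂ ∈ ({0, 4, 16, 20} : Finset ℤ), ∀ b₂' ∈ ({0, 4, 16, 20} : Finset ℤ),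
      nuHat {0, 3, 18, 21} ((d : ℝ) / ((24 : ℕ) : ℝ) ^ 2 +
        ((b₂ : ℝ) - (b₂' : ℝ)) / ((24 : ℕ) : ℝ)) = 0 := by
  intro b hb b' hb'
  have h4 : ∀ c ∈ ({0, 4, 16, 20} : Finset ℤ), ∃ u : ℤ, c = 4 * u := by
    intro c hc
    simp only [Finset.mem_insert, Finset.mem_singleton] at hc
    rcases hc with rfl | rfl | rfl | rfl
    exacts [⟨0, rfl⟩, ⟨1, rfl⟩, ⟨4, rfl⟩, ⟨5, rfl⟩]
  obtain ⟨u, rfl⟩ := h4 b hb
  obtain ⟨v, rfl⟩ := h4 b' hb'
  apply z18 _ (j + 3 * (u - v))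
  rw [hd]; push_cast; ring

lemma type1 (b b' : ℤ) (j : ℤ) (hd : b - b' = 8 * j + 4) :
    nuHat {0, 3, 18, 21} (((b : ℝ) - (b' : ℝ)) / ((24 : ℕ) : ℝ)) = 0 := by
  apply z3 _ j
  have : (b : ℝ) - b' = 8 * j + 4 := by exact_mod_cast hd
  rw [this]; push_cast; ring

theorem result : ¬ ∀ (M : ℕ) (A B : Finset ℤ), 3 ≤ M →
    A ⊆ Finset.Ico 0 (M : ℤ) → B ⊆ Finset.Ico 0 (M : ℤ) → A.card = B.card →
    1 < A.card → A.card < M → Distributed M A B →
    SpectralPair M A B ∨ SpectralPair (M ^ 2) A B := by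
  intro H
  have hD : Distributed 24 {0, 3, 18, 21} {0, 4, 16, 20} := by
    intro b hb b' hb' hne
    have key : (∃ j ∈ Finset.Icc (-5 : ℤ) 5, b - b' = 8 * j + 4) ∨
        (∃ j ∈ Finset.Icc (-5 : ℤ) 5, b - b' = 32 * j + 16) := by
      revert b b'
      decide
    rcases key with ⟨j, -, hj⟩ | ⟨j, -, hj⟩
    · exact Or.inl (type1 b b' j hj)
    · right
      have := type2 (b - b') j hj
      rwa [Int.cast_sub] at this
  rcases H 24 {0, 3, 18, 21} {0, 4, 16, 20} (by norm_num) (by decide) (by decide) (by decide)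
    (by decide) (by decide) hD with h | h
  · have := h 16 (by decide) 0 (by decide) (by decide)
    rw [fac, e_int _ 2 (by push_cast; norm_num), e_int _ 12 (by push_cast; norm_num)] at this
    norm_num at this
  · have := h 4 (by decide) 0 (by decide) (by decide)
    rw [fac] at this
    have h1 := e_small (3 * ((((4 : ℤ) : ℝ) - ((0 : ℤ) : ℝ)) / ((24 ^ 2 : ℕ) : ℝ)))
      (by push_cast; norm_num) (by push_cast; norm_num)
    have h2 := e_small (18 * ((((4 : ℤ) : ℝ) - ((0 : ℤ) : ℝ)) / ((24 ^ 2 : ℕ) : ℝ)))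
      (by push_cast; norm_num) (by push_cast; norm_num)
    exact mul_ne_zero (by norm_num) (mul_ne_zero h1 h2) this

end Pool.Agent.Results.MP_2c87a3_an.Mixed
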